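import Pool.Agent.Helper68.TG.Goals

/-!
# TG: the goal `AIG` (an irreducible polynomial with a smooth zero in `K` is absolutely irreducible)
-/

set_option autoImplicit false

open MvPolynomial

namespace Pool.Agent.Helper50.TG.AIG

/-- The key step: a normalized irreducible factor through the smooth zero is fixed by every
automorphism. -/
theorem fixed {L σ : Type} [Field L] (G : MvPolynomial σ L) (x : σ → L) (a : σ)
    (hd : eval x (pderiv a G) ≠ 0) (p : MvPolynomial σ L) (hp : Irreducible p) (hpG : p ∣ G)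
    (hpx : eval x p = 0) (m : σ →₀ ℕ) (hm : coeff m p = 1) (τ : L ≃+* L)
    (hτG : map (τ : L →+* L) G = G) (hτx : ∀ i, τ (x i) = x i) :
    map (τ : L →+* L) p = p := by
  classical
  set q : MvPolynomial σ L := map (τ : L →+* L) p with hq
  have hqirr : Irreducible q := by
    have h1 := (MulEquiv.irreducible_iff (MvPolynomial.mapEquiv σ τ) (x := p)).mpr hp
    rwa [MvPolynomial.mapEquiv_apply] at h1
  have hqG : q ∣ G := by
    obtain ⟨r, hr⟩ := hpG
    refine ⟨map (τ : L →+* L) r, ?_⟩
    rw [hq, ← map_mul, ← hr, hτG]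
  have hqx : eval x q = 0 := by
    rw [hq, eval_map]
    have h1 := eval₂_comp (τ : L →+* L) x p
    have h2 : ((τ : L →+* L) : L → L) ∘ x = x := by
      funext i
      exact hτx i
    rw [h2] at h1
    rw [← h1, hpx, map_zero]
  have hqm : coeff m q = 1 := by
    rw [hq, coeff_map, hm, map_one]
  by_contra hne
  have hpr : Prime p := hp.prime
  obtain ⟨r, hr⟩ := hqG
  have hpd : p ∣ q * r := hr ▸ hpG
  rcases hpr.dvd_or_dvd hpd with h1 | h1
  · -- `p` and `q` are associated
    have has : Associated p q := (hp.dvd_irreducible_iff_associated hqirr).mp h1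
    obtain ⟨u, hu⟩ := has
    obtain ⟨c, hc⟩ := MvPolynomial.isUnit_iff_eq_C_of_isReduced.mp u.isUnit
    have h2 : coeff m q = c := by
      rw [← hu, hc.2, mul_comm, coeff_C_mul, hm, mul_one]
    rw [hqm] at h2
    apply hne
    rw [← hu, hc.2, ← h2, C_1, mul_one]
  · obtain ⟨s, hs⟩ := h1
    apply hd
    rw [hr, hs, Derivation.leibniz, Derivation.leibniz]
    simp [hpx, hqx]

theorem t_AIG : Pool.Agent.Helper68.TG.AIG := by
  intro K _ _ σ _ _ g x a hirr hx hd
  classical
  set L := AlgebraicClosure K with hL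
  set φ : K →+* L := algebraMap K L with hφ
  have hφi : Function.Injective φ := (algebraMap K L).injective
  have hmi : Function.Injective (map φ : MvPolynomial σ K → MvPolynomial σ L) :=
    map_injective φ hφi
  set G : MvPolynomial σ L := map φ g with hG
  have hG0 : G ≠ 0 := by
    intro h
    exact hirr.ne_zero (hmi (by rw [← hG, h, map_zero]))
  have hGx : eval (φ ∘ x) G = 0 := by
    rw [hG, eval_map, ← eval₂_comp, hx, map_zero]
  have hdG : eval (φ ∘ x) (pderiv a G) ≠ 0 := by
    rw [hG, pderiv_map, eval_map, ← eval₂_comp]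
    exact fun h => hd (hφi (by rw [h, map_zero]))
  -- an irreducible factor through the point
  obtain ⟨f, hf, hfG⟩ := WfDvdMonoid.exists_factors G hG0
  have hfx : (f.map (eval (φ ∘ x))).prod = 0 := by
    obtain ⟨u, hu⟩ := hfG
    have h1 : eval (φ ∘ x) (f.prod * u) = 0 := by rw [hu, hGx]
    rw [map_mul, mul_eq_zero] at h1
    rcases h1 with h1 | h1
    · rwa [← map_multiset_prod] 
    · exact absurd h1 (IsUnit.ne_zero (u.isUnit.map _))
  obtain ⟨p', hp', hp'x⟩ := Multiset.mem_map.mp (Multiset.prod_eq_zero_iff.mp hfx)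
  have hp'i := hf p' hp'
  have hp'G : p' ∣ G := (Multiset.dvd_prod hp').trans hfG.dvd
  obtain ⟨m, hm⟩ := MvPolynomial.ne_zero_iff.mp hp'i.ne_zero
  -- normalize
  set p : MvPolynomial σ L := C (coeff m p')⁻¹ * p' with hp
  have hunit : IsUnit (C (coeff m p')⁻¹ : MvPolynomial σ L) :=
    (IsUnit.mk0 _ (inv_ne_zero hm)).map C
  have hpass : Associated p p' := by
    rw [hp, mul_comm]
    exact associated_mul_unit_left p' _ hunit
  have hpi : Irreducible p := hpass.symm.irreducible hp'i
  have hpG : p ∣ G := hpass.dvd.trans hp'G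
  have hpx : eval (φ ∘ x) p = 0 := by rw [hp, map_mul, hp'x, mul_zero]
  have hpm : coeff m p = 1 := by rw [hp, coeff_C_mul, inv_mul_cancel₀ hm]
  -- Galois descent
  have hτG : ∀ τ : L ≃ₐ[K] L, map ((τ : L ≃+* L) : L →+* L) G = G := by
    intro τ
    have h1 : ((τ : L ≃+* L) : L →+* L).comp φ = φ := RingHom.ext fun z => τ.commutes z
    rw [hG, map_map, h1]
  have hfix : ∀ τ : L ≃ₐ[K] L, map ((τ : L ≃+* L) : L →+* L) p = p := fun τ =>
    fixed G (φ ∘ x) a hdG p hpi hpG hpx m hpm (τ : L ≃+* L) (hτG τ)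
      (fun i => τ.commutes (x i))
  have hdesc : ∀ r : MvPolynomial σ L,
      (∀ τ : L ≃ₐ[K] L, map ((τ : L ≃+* L) : L →+* L) r = r) → ∃ r0, map φ r0 = r := by
    intro r hr
    have h1 : r ∈ Set.range (MvPolynomial.map φ) := by
      rw [mem_range_map_iff_coeffs_subset]
      intro c hc
      rw [Finset.mem_coe, MvPolynomial.mem_coeffs_iff] at hc
      obtain ⟨n, -, rfl⟩ := hc
      rw [hφ]
      rw [InfiniteGalois.mem_range_algebraMap_iff_fixed]
      intro τ
      have h2 := congrArg (coeff n) (hr τ)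
      rw [coeff_map] at h2
      exact h2
    exact h1
  obtain ⟨s, hs⟩ := hpG
  have hsfix : ∀ τ : L ≃ₐ[K] L, map ((τ : L ≃+* L) : L →+* L) s = s := by
    intro τ
    have h1 := hτG τ
    rw [hs, map_mul, hfix τ] at h1
    exact mul_left_cancel₀ hpi.ne_zero h1
  obtain ⟨p0, hp0⟩ := hdesc p hfix
  obtain ⟨s0, hs0⟩ := hdesc s hsfix
  have hg : g = p0 * s0 := by
    apply hmi
    rw [map_mul, hp0, hs0, ← hs]
  rcases hirr.isUnit_or_isUnit hg with h1 | h1
  · exact absurd (hp0 ▸ h1.map (map φ)) hpi.not_isUnit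
  · have h2 : IsUnit s := hs0 ▸ h1.map (map φ)
    have h3 : Associated p G := by
      rw [hs]
      exact (associated_mul_unit_left p s h2).symm
    exact h3.irreducible hpi

end Pool.Agent.Helper50.TG.AIG
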