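import Pool.Agent.Helper68.TG.Goals

/-!
Project TG (MP_a41896_nt), packet TG-FLAT-SPA (helper50): specialization of a flat factor.
-/

set_option autoImplicit false

open MvPolynomial

namespace Pool.Agent.Helper50.TG.SPA

open Pool.Agent.Helper68.TG

noncomputable section

theorem lift_poly {K L σ : Type} [Field K] [Field L] [Algebra K L] (A : Subalgebra K L)
    (f : MvPolynomial σ L) (hf : ∀ m, coeff m f ∈ A) :
    ∃ f' : MvPolynomial σ A, MvPolynomial.map (A.val : A →+* L) f' = f := by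
  refine ⟨∑ m ∈ f.support, monomial m ⟨coeff m f, hf m⟩, ?_⟩
  rw [map_sum]
  conv_rhs => rw [← f.support_sum_monomial_coeff]
  refine Finset.sum_congr rfl fun m _ => ?_
  rw [map_monomial]
  rfl

/-- the set of the coefficients -/
def cs {L σ : Type} [Field L] (f : MvPolynomial σ L) : Set L :=
  (fun m => coeff m f) '' (f.support : Set (σ →₀ ℕ))

theorem cs_fin {L σ : Type} [Field L] (f : MvPolynomial σ L) : (cs f).Finite :=
  (Finset.finite_toSet _).image _

theorem mem_of_cs {K L σ : Type} [Field K] [Field L] [Algebra K L] (A : Subalgebra K L)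
    (f : MvPolynomial σ L) (h : cs f ⊆ A) (m : σ →₀ ℕ) : coeff m f ∈ A := by
  by_cases hm : m ∈ f.support
  · exact h ⟨m, hm, rfl⟩
  · rw [notMem_support_iff.1 hm]
    exact A.zero_mem

theorem t_SPA (hN : NSL) (hP : PNL) : SPA := by
  intro σ _ _ N K L κ _ _ _ _ l j b g α p q r m i0 h1 h2 h3 h4
  letI : Algebra K L := l.toAlgebra
  letI : Algebra K κ := j.toAlgebra
  obtain ⟨S, hS⟩ : ∃ S : Set L, S = Set.range α ∪ cs p ∪ cs q ∪ cs r := ⟨_, rfl⟩
  have hSf : S.Finite := by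
    rw [hS]
    exact (((Set.finite_range α).union (cs_fin p)).union (cs_fin q)).union (cs_fin r)
  obtain ⟨φ⟩ := hN K L κ S hSf
  obtain ⟨A, hA⟩ : ∃ A : Subalgebra K L, A = Algebra.adjoin K S := ⟨_, rfl⟩
  rw [← hA] at φ
  have hSA : S ⊆ A := by
    rw [hA]
    exact Algebra.subset_adjoin
  have hα : ∀ i, α i ∈ A := fun i => hSA (by rw [hS]; exact Or.inl (Or.inl (Or.inl ⟨i, rfl⟩)))
  have hp : cs p ⊆ A := fun x hx => hSA (by rw [hS]; exact Or.inl (Or.inl (Or.inr hx)))
  have hq : cs q ⊆ A := fun x hx => hSA (by rw [hS]; exact Or.inl (Or.inr hx))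
  have hr : cs r ⊆ A := fun x hx => hSA (by rw [hS]; exact Or.inr hx)
  obtain ⟨p', hp'⟩ := lift_poly A p (mem_of_cs A p hp)
  obtain ⟨q', hq'⟩ := lift_poly A q (mem_of_cs A q hq)
  obtain ⟨r', hr'⟩ := lift_poly A r (mem_of_cs A r hr)
  obtain ⟨ι, hι⟩ : ∃ ι : A →+* L, ι = (A.val : A →+* L) := ⟨_, rfl⟩
  obtain ⟨kA, hkA⟩ : ∃ kA : K →+* A, kA = algebraMap K A := ⟨_, rfl⟩
  obtain ⟨ψ, hψ⟩ : ∃ ψ : A →+* κ, ψ = (φ : A →+* κ) := ⟨_, rfl⟩
  rw [← hι] at hp' hq' hr'
  have hιinj : Function.Injective ι := by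
    rw [hι]
    exact Subtype.val_injective
  have hιk : ι.comp kA = l := by
    rw [hι, hkA]
    rfl
  have hψk : ψ.comp kA = j := by
    rw [hψ, hkA]
    exact φ.comp_algebraMap
  have hml : ∀ f : MvPolynomial σ K, MvPolynomial.map ι (MvPolynomial.map kA f) =
      MvPolynomial.map l f := by
    intro f
    rw [map_map, hιk]
  have hmj : ∀ f : MvPolynomial σ K, MvPolynomial.map ψ (MvPolynomial.map kA f) =
      MvPolynomial.map j f := by
    intro f
    rw [map_map, hψk]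
  obtain ⟨α', hα'⟩ : ∃ α' : σ → A, ∀ i, ι (α' i) = α i :=
    ⟨fun i => ⟨α i, hα i⟩, fun i => by rw [hι]; rfl⟩
  have e1 : MvPolynomial.map kA g = p' * q' := by
    apply map_injective ι hιinj
    rw [hml, map_mul, hp', hq', h1]
  have e2 : PN N (fun i => MvPolynomial.map kA (b i)) (MvPolynomial.map kA g) α' = p' * r' := by
    apply map_injective ι hιinj
    rw [(hP σ N).1 A L ι, map_mul, hp', hr', ← h2]
    simp only [hml, hα']
  have e3 : coeff m p' = 1 := by
    apply hιinj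
    rw [← coeff_map, hp', h3, map_one]
  have e4 : α' i0 = 1 := by
    apply hιinj
    rw [hα', h4, map_one]
  refine ⟨fun i => ψ (α' i), MvPolynomial.map ψ p', MvPolynomial.map ψ q', MvPolynomial.map ψ r',
    ?_, ?_, ?_, ?_⟩
  · rw [← hmj, e1, map_mul]
  · have e5 := congrArg (MvPolynomial.map ψ) e2
    rw [(hP σ N).1 A κ ψ, map_mul] at e5
    rw [← e5]
    simp only [hmj]
  · rw [coeff_map, e3, map_one]
  · simp only [e4, map_one]

end

end Pool.Agent.Helper50.TG.SPA
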